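import Mathlib

set_option autoImplicit false
open MeasureTheory ProbabilityTheory Matrix Filter Topology
open scoped NNReal ENNReal MatrixOrder

namespace Pool.Agent.Results.MP_5a340a_gt.NonDiagonal

/-- The dilate `D_t K`, where `D_t = diag(e^{t_1}, ..., e^{t_n})`. -/
def dilate {n : ℕ} (t : Fin n → ℝ) (K : Set (EuclideanSpace ℝ (Fin n))) :
    Set (EuclideanSpace ℝ (Fin n)) :=
  (fun x : EuclideanSpace ℝ (Fin n) => WithLp.toLp 2 (fun i => Real.exp (t i) * x i)) '' K

theorem mem_dilate {n : ℕ} (t : Fin n → ℝ) (K : Set (EuclideanSpace ℝ (Fin n)))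
    (y : EuclideanSpace ℝ (Fin n)) :
    y ∈ dilate t K ↔ WithLp.toLp 2 (fun i => Real.exp (-(t i)) * y i) ∈ K := by
  unfold dilate
  constructor
  · rintro ⟨x, hx, rfl⟩
    convert hx using 1
    ext i
    simp only
    rw [← mul_assoc, ← Real.exp_add]
    simp
  · intro h
    refine ⟨_, h, ?_⟩
    ext i
    simp only
    rw [← mul_assoc, ← Real.exp_add]
    simp

theorem dilate_mono {n : ℕ} (t : Fin n → ℝ) {K L : Set (EuclideanSpace ℝ (Fin n))} (h : K ⊆ L) :
    dilate t K ⊆ dilate t L := Set.image_mono h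

section real

theorem q_eq (v : ℝ≥0) (hv : v ≠ 0) (δ : ℝ) :
    (gaussianReal 0 v).real (Set.Icc (-δ) δ) = ∫ x in Set.Icc (-δ) δ, gaussianPDFReal 0 v x := by
  rw [measureReal_def, gaussianReal_apply_eq_integral 0 hv, ENNReal.toReal_ofReal]
  exact setIntegral_nonneg measurableSet_Icc (fun x _ => gaussianPDFReal_nonneg _ _ _)

theorem q_le (v : ℝ≥0) (hv : v ≠ 0) (δ : ℝ) (hδ : 0 ≤ δ) :
    (gaussianReal 0 v).real (Set.Icc (-δ) δ) ≤ 2 * δ * (√(2 * Real.pi * v))⁻¹ := by
  rw [q_eq v hv]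
  have h1 : ∫ x in Set.Icc (-δ) δ, gaussianPDFReal 0 v x
      ≤ ∫ x in Set.Icc (-δ) δ, (√(2 * Real.pi * v))⁻¹ := by
    apply setIntegral_mono_on (integrable_gaussianPDFReal 0 v).integrableOn
    · exact integrableOn_const (by simp)
    · exact measurableSet_Icc
    · intro x _
      unfold gaussianPDFReal
      have : Real.exp (-(x - 0) ^ 2 / (2 * v)) ≤ 1 := by
        apply Real.exp_le_one_iff.mpr
        apply div_nonpos_of_nonpos_of_nonneg
        · nlinarith [sq_nonneg (x - 0)]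
        · positivity
      have h2 : 0 ≤ (√(2 * Real.pi * v))⁻¹ := by positivity
      nlinarith
  refine h1.trans (le_of_eq ?_)
  rw [setIntegral_const]
  simp only [Real.volume_real_Icc, smul_eq_mul]
  rw [max_eq_left (by linarith)]
  ring

theorem le_q (v : ℝ≥0) (hv : v ≠ 0) (δ : ℝ) (hδ : 0 ≤ δ) :
    2 * δ * (√(2 * Real.pi * v))⁻¹ * Real.exp (-(δ ^ 2 / (2 * v))) ≤
      (gaussianReal 0 v).real (Set.Icc (-δ) δ) := by
  rw [q_eq v hv]
  have h1 : ∫ x in Set.Icc (-δ) δ, (√(2 * Real.pi * v))⁻¹ * Real.exp (-(δ ^ 2 / (2 * v)))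
      ≤ ∫ x in Set.Icc (-δ) δ, gaussianPDFReal 0 v x := by
    apply setIntegral_mono_on _ (integrable_gaussianPDFReal 0 v).integrableOn
    · exact measurableSet_Icc
    · intro x hx
      unfold gaussianPDFReal
      have h2 : 0 ≤ (√(2 * Real.pi * v))⁻¹ := by positivity
      apply mul_le_mul_of_nonneg_left _ h2
      apply Real.exp_le_exp.mpr
      rw [neg_div, sub_zero]
      apply neg_le_neg
      apply div_le_div_of_nonneg_right _ (by positivity)
      rw [← sq_abs x]
      have : |x| ≤ δ := abs_le.mpr hx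
      exact pow_le_pow_left₀ (abs_nonneg x) this 2
    · exact integrableOn_const (by simp)
  refine (le_of_eq ?_).trans h1
  rw [setIntegral_const]
  simp only [Real.volume_real_Icc, smul_eq_mul]
  rw [max_eq_left (by linarith)]
  ring

theorem exists_delta (vs vt vm : ℝ≥0) (hs : vs ≠ 0) (ht : vt ≠ 0) (hm : vm ≠ 0)
    (h : (vs : ℝ) * vt < (vm : ℝ) ^ 2) :
    ∃ δ : ℝ, 0 < δ ∧ (gaussianReal 0 vm).real (Set.Icc (-δ) δ) ^ 2 <
      (gaussianReal 0 vs).real (Set.Icc (-δ) δ) * (gaussianReal 0 vt).real (Set.Icc (-δ) δ) := by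
  have hs' : (0:ℝ) < vs := by exact_mod_cast pos_iff_ne_zero.mpr hs
  have ht' : (0:ℝ) < vt := by exact_mod_cast pos_iff_ne_zero.mpr ht
  have hm' : (0:ℝ) < vm := by exact_mod_cast pos_iff_ne_zero.mpr hm
  set r : ℝ := √((vs : ℝ) * vt) / vm with hr
  have hsq : √((vs : ℝ) * vt) < vm := by
    rw [Real.sqrt_lt' hm']; exact h
  have hr1 : r < 1 := by rw [hr, div_lt_one hm']; exact hsq
  have hr0 : 0 < r := by positivity
  set c : ℝ := 1 / (2 * vs) + 1 / (2 * vt) with hc
  have hc0 : 0 < c := by positivity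
  refine ⟨√((1 - r) / (2 * c)), Real.sqrt_pos.mpr (by apply div_pos <;> linarith), ?_⟩
  set δ := √((1 - r) / (2 * c)) with hδ
  have hδ0 : 0 < δ := Real.sqrt_pos.mpr (by apply div_pos <;> linarith)
  have hδ2 : δ ^ 2 = (1 - r) / (2 * c) := Real.sq_sqrt (by apply div_nonneg <;> linarith)
  have hδc : δ ^ 2 * c = (1 - r) / 2 := by rw [hδ2]; field_simp
  have e1 := q_le vm hm δ hδ0.le
  have e2 := le_q vs hs δ hδ0.le
  have e3 := le_q vt ht δ hδ0.le
  have hq0 : 0 ≤ (gaussianReal 0 vm).real (Set.Icc (-δ) δ) := measureReal_nonneg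
  have hpi := Real.pi_pos
  calc (gaussianReal 0 vm).real (Set.Icc (-δ) δ) ^ 2
      ≤ (2 * δ * (√(2 * Real.pi * vm))⁻¹) ^ 2 := pow_le_pow_left₀ hq0 e1 2
    _ = (4 * δ ^ 2 / (2 * Real.pi)) * (1 / vm) := by
        rw [mul_pow, inv_pow, Real.sq_sqrt (by positivity)]
        field_simp
        norm_num
    _ < (4 * δ ^ 2 / (2 * Real.pi)) * ((1 / √((vs : ℝ) * vt)) * Real.exp (-(δ ^ 2 * c))) := by
        apply mul_lt_mul_of_pos_left _ (by positivity)
        have h1 : r < Real.exp (-(δ ^ 2 * c)) := by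
          have := Real.add_one_le_exp (-(δ ^ 2 * c))
          rw [hδc] at this ⊢
          linarith
        have h2 : 0 < √((vs : ℝ) * vt) := by positivity
        rw [one_div_mul_eq_div, div_lt_div_iff₀ hm' h2]
        rw [hr, div_lt_iff₀ hm'] at h1
        linarith
    _ = (2 * δ * (√(2 * Real.pi * vs))⁻¹ * Real.exp (-(δ ^ 2 / (2 * vs)))) *
        (2 * δ * (√(2 * Real.pi * vt))⁻¹ * Real.exp (-(δ ^ 2 / (2 * vt)))) := by
        have h4 : Real.exp (-(δ ^ 2 * c)) =
            Real.exp (-(δ ^ 2 / (2 * vs))) * Real.exp (-(δ ^ 2 / (2 * vt))) := by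
          rw [← Real.exp_add]; congr 1; rw [hc]; ring
        have h5 : √(2 * Real.pi * vs) * √(2 * Real.pi * vt) = 2 * Real.pi * √((vs : ℝ) * vt) := by
          rw [← Real.sqrt_mul (by positivity), show 2 * Real.pi * (vs : ℝ) * (2 * Real.pi * vt) =
            (2 * Real.pi) ^ 2 * (vs * vt) by ring, Real.sqrt_mul (by positivity),
            Real.sqrt_sq (by positivity)]
        rw [h4]
        have h6 : (√(2 * Real.pi * vs))⁻¹ * (√(2 * Real.pi * vt))⁻¹ =
            1 / (2 * Real.pi) * (1 / √((vs : ℝ) * vt)) := by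
          rw [← mul_inv, h5, mul_inv]; simp [one_div]
        calc (4 * δ ^ 2 / (2 * Real.pi)) * ((1 / √((vs : ℝ) * vt)) *
              (Real.exp (-(δ ^ 2 / (2 * vs))) * Real.exp (-(δ ^ 2 / (2 * vt)))))
            = 4 * δ ^ 2 * (1 / (2 * Real.pi) * (1 / √((vs : ℝ) * vt))) *
              (Real.exp (-(δ ^ 2 / (2 * vs))) * Real.exp (-(δ ^ 2 / (2 * vt)))) := by ring
          _ = _ := by rw [← h6]; ring
    _ ≤ _ := mul_le_mul e2 e3 (by positivity) measureReal_nonneg

end real

section openpos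

theorem isOpenPos_gaussianReal : (gaussianReal 0 1).IsOpenPosMeasure :=
  (gaussianReal_absolutelyContinuous' 0 one_ne_zero).isOpenPosMeasure

theorem isOpenPos_stdGaussian (n : ℕ) :
    (stdGaussian (EuclideanSpace ℝ (Fin n))).IsOpenPosMeasure := by
  have := isOpenPos_gaussianReal
  unfold stdGaussian
  apply Continuous.isOpenPosMeasure_map
  · fun_prop
  · intro y
    refine ⟨fun i => (stdOrthonormalBasis ℝ (EuclideanSpace ℝ (Fin n))).repr y i, ?_⟩
    exact (stdOrthonormalBasis ℝ (EuclideanSpace ℝ (Fin n))).sum_repr y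

theorem pos_of_open {n : ℕ} (S : Matrix (Fin n) (Fin n) ℝ)
    (U : Set (EuclideanSpace ℝ (Fin n))) (hU : IsOpen U) (h0 : (0 : EuclideanSpace ℝ (Fin n)) ∈ U) :
    0 < (multivariateGaussian (0 : EuclideanSpace ℝ (Fin n)) S) U := by
  have := isOpenPos_stdGaussian n
  unfold multivariateGaussian
  have hcont : Continuous (fun x : EuclideanSpace ℝ (Fin n) =>
      0 + toEuclideanCLM (𝕜 := ℝ) (CFC.sqrt S) x) := by fun_prop
  rw [Measure.map_apply hcont.measurable hU.measurableSet]
  apply IsOpen.measure_pos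
  · exact hU.preimage hcont
  · exact ⟨0, by simpa using h0⟩

end openpos

/-- The functional `x ↦ a x_i + b x_j` as an inner product with a vector. -/
noncomputable def wvec {n : ℕ} (i j : Fin n) (a b : ℝ) : EuclideanSpace ℝ (Fin n) :=
  WithLp.toLp 2 (Pi.single i a + Pi.single j b)

theorem inner_wvec {n : ℕ} (i j : Fin n) (a b : ℝ) (x : EuclideanSpace ℝ (Fin n)) :
    inner ℝ (wvec i j a b) x = a * x i + b * x j := by
  simp [wvec, PiLp.inner_apply, mul_add, Finset.sum_add_distrib]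
  ring

theorem map_eq {n : ℕ} (S : Matrix (Fin n) (Fin n) ℝ) (hS : S.PosSemidef) (i j : Fin n)
    (a b : ℝ) :
    (multivariateGaussian (0 : EuclideanSpace ℝ (Fin n)) S).map
      (fun x => a * x i + b * x j) =
      gaussianReal 0 (a ^ 2 * S i i + 2 * a * b * S i j + b ^ 2 * S j j).toNNReal := by
  set μ := multivariateGaussian (0 : EuclideanSpace ℝ (Fin n)) S with hμ
  have hfun : (fun x : EuclideanSpace ℝ (Fin n) => a * x i + b * x j) =
      (innerSL ℝ (wvec i j a b) : StrongDual ℝ (EuclideanSpace ℝ (Fin n))) := by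
    ext x
    rw [innerSL_apply_apply, inner_wvec]
  rw [hfun, IsGaussian.map_eq_gaussianReal]
  have hmean : ∫ x, (innerSL ℝ (wvec i j a b)) x ∂μ = 0 := by
    rw [ContinuousLinearMap.integral_comp_comm _ IsGaussian.integrable_fun_id,
      integral_id_multivariateGaussian, map_zero]
  have hvar : Var[(innerSL ℝ (wvec i j a b)); μ] =
      a ^ 2 * S i i + 2 * a * b * S i j + b ^ 2 * S j j := by
    have h1 := covarianceBilin_self (μ := μ) IsGaussian.memLp_two_id (wvec i j a b)
    have h2 : (fun u => inner ℝ (wvec i j a b) u) =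
      (innerSL ℝ (wvec i j a b) : StrongDual ℝ (EuclideanSpace ℝ (Fin n))) := by
      ext x; rw [innerSL_apply_apply]
    rw [h2] at h1
    rw [← h1, covarianceBilin_multivariateGaussian hS]
    have hsym : S j i = S i j := by
      have := hS.isHermitian.apply i j
      simpa using this
    simp only [wvec, dotProduct_mulVec, add_vecMul, add_dotProduct, dotProduct_add]
    simp only [dotProduct_single, single_vecMul, Pi.smul_apply, smul_eq_mul, row_apply]
    rw [hsym]
    ring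
  rw [hmean, hvar]

theorem quad_nonneg {n : ℕ} (S : Matrix (Fin n) (Fin n) ℝ) (hS : S.PosSemidef) (i j : Fin n)
    (a b : ℝ) : 0 ≤ a ^ 2 * S i i + 2 * a * b * S i j + b ^ 2 * S j j := by
  have h := hS.dotProduct_mulVec_nonneg (Pi.single i a + Pi.single j b)
  have hsym : S j i = S i j := by
    have := hS.isHermitian.apply i j
    simpa using this
  simp only [dotProduct_mulVec, add_vecMul, star_trivial, add_dotProduct, dotProduct_add] at h
  simp only [dotProduct_single, single_vecMul, Pi.smul_apply, smul_eq_mul, row_apply] at h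
  rw [hsym] at h
  linarith

/-- The symmetric strip `|a x_i + b x_j| ≤ δ`. -/
def strip {n : ℕ} (i j : Fin n) (a b δ : ℝ) : Set (EuclideanSpace ℝ (Fin n)) :=
  {x | a * x i + b * x j ∈ Set.Icc (-δ) δ}

theorem strip_real {n : ℕ} (S : Matrix (Fin n) (Fin n) ℝ) (hS : S.PosSemidef) (i j : Fin n)
    (a b δ : ℝ) (t : Fin n → ℝ) :
    (multivariateGaussian 0 S).real (dilate t (strip i j a b δ)) =
      (gaussianReal 0 ((a * Real.exp (-(t i))) ^ 2 * S i i +
        2 * (a * Real.exp (-(t i))) * (b * Real.exp (-(t j))) * S i j +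
        (b * Real.exp (-(t j))) ^ 2 * S j j).toNNReal).real (Set.Icc (-δ) δ) := by
  rw [← map_eq S hS i j (a * Real.exp (-(t i))) (b * Real.exp (-(t j)))]
  rw [map_measureReal_apply (by fun_prop) measurableSet_Icc]
  congr 1
  ext y
  rw [mem_dilate]
  simp only [strip, Set.mem_ofPred_eq, Set.mem_preimage]
  rw [mul_assoc, mul_assoc]

theorem strip_eq {n : ℕ} (i j : Fin n) (a b δ : ℝ) :
    strip i j a b δ =
      (innerSL ℝ (wvec i j a b) : StrongDual ℝ (EuclideanSpace ℝ (Fin n))) ⁻¹' Set.Icc (-δ) δ := by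
  ext x
  rw [Set.mem_preimage, innerSL_apply_apply, inner_wvec]
  rfl

theorem convex_strip {n : ℕ} (i j : Fin n) (a b δ : ℝ) : Convex ℝ (strip i j a b δ) := by
  rw [strip_eq]
  exact (convex_Icc (-δ) δ).linear_preimage
    (innerSL ℝ (wvec i j a b) : StrongDual ℝ (EuclideanSpace ℝ (Fin n))).toLinearMap

theorem isClosed_strip {n : ℕ} (i j : Fin n) (a b δ : ℝ) : IsClosed (strip i j a b δ) := by
  rw [strip_eq]
  exact isClosed_Icc.preimage (ContinuousLinearMap.continuous _)

theorem zero_mem_interior_strip {n : ℕ} (i j : Fin n) (a b δ : ℝ) (hδ : 0 < δ) :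
    (0 : EuclideanSpace ℝ (Fin n)) ∈ interior (strip i j a b δ) := by
  rw [strip_eq, mem_interior]
  refine ⟨(innerSL ℝ (wvec i j a b) : StrongDual ℝ (EuclideanSpace ℝ (Fin n))) ⁻¹' Set.Ioo (-δ) δ,
    Set.preimage_mono Set.Ioo_subset_Icc_self,
    isOpen_Ioo.preimage (ContinuousLinearMap.continuous _), ?_⟩
  rw [Set.mem_preimage, map_zero]
  exact ⟨by linarith, hδ⟩

theorem neg_mem_strip {n : ℕ} (i j : Fin n) (a b δ : ℝ) (x : EuclideanSpace ℝ (Fin n))
    (hx : x ∈ strip i j a b δ) : -x ∈ strip i j a b δ := by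
  simp only [strip, Set.mem_ofPred_eq, Set.mem_Icc, PiLp.neg_apply] at hx ⊢
  constructor <;> linarith [hx.1, hx.2]

theorem pos_dilate {n : ℕ} (S : Matrix (Fin n) (Fin n) ℝ) (K : Set (EuclideanSpace ℝ (Fin n)))
    (h0 : (0 : EuclideanSpace ℝ (Fin n)) ∈ interior K) (t : Fin n → ℝ) :
    0 < (multivariateGaussian 0 S).real (dilate t K) := by
  have hg : Continuous (fun y : EuclideanSpace ℝ (Fin n) =>
      (WithLp.toLp 2 (fun i => Real.exp (-(t i)) * y i) : EuclideanSpace ℝ (Fin n))) := by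
    fun_prop
  have hsub : (fun y : EuclideanSpace ℝ (Fin n) =>
      (WithLp.toLp 2 (fun i => Real.exp (-(t i)) * y i) : EuclideanSpace ℝ (Fin n))) ⁻¹'
        (interior K) ⊆ dilate t K := by
    intro y hy
    rw [mem_dilate]
    exact interior_subset hy
  have h1 := pos_of_open S _ (isOpen_interior.preimage hg) (by
    rw [Set.mem_preimage]
    convert h0 using 1
    ext i
    simp)
  rw [measureReal_def]
  exact ENNReal.toReal_pos (lt_of_lt_of_le h1 (measure_mono hsub)).ne' (measure_ne_top _ _)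

theorem tendsto_trunc {n : ℕ} (S : Matrix (Fin n) (Fin n) ℝ)
    (K : Set (EuclideanSpace ℝ (Fin n))) (t : Fin n → ℝ) :
    Tendsto (fun R : ℕ => (multivariateGaussian 0 S).real
      (dilate t (K ∩ Metric.closedBall 0 (R : ℝ)))) atTop
      (𝓝 ((multivariateGaussian 0 S).real (dilate t K))) := by
  have hmono : Monotone (fun R : ℕ => dilate t (K ∩ Metric.closedBall 0 (R : ℝ))) := by
    intro R R' hR
    apply dilate_mono
    apply Set.inter_subset_inter_right
    apply Metric.closedBall_subset_closedBall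
    exact_mod_cast hR
  have hU : (⋃ R : ℕ, dilate t (K ∩ Metric.closedBall 0 (R : ℝ))) = dilate t K := by
    apply Set.Subset.antisymm
    · apply Set.iUnion_subset
      intro R
      exact dilate_mono t Set.inter_subset_left
    · intro y hy
      rw [mem_dilate] at hy
      obtain ⟨R, hR⟩ := exists_nat_ge
        ‖(WithLp.toLp 2 (fun i => Real.exp (-(t i)) * y i) : EuclideanSpace ℝ (Fin n))‖
      refine Set.mem_iUnion.mpr ⟨R, ?_⟩
      rw [mem_dilate]
      exact ⟨hy, by rw [mem_closedBall_zero_iff]; exact hR⟩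
  have h := tendsto_measure_iUnion_atTop (μ := multivariateGaussian 0 S) hmono
  rw [hU] at h
  exact (ENNReal.tendsto_toReal (measure_ne_top _ _)).comp h

theorem exists_body {n : ℕ} (S : Matrix (Fin n) (Fin n) ℝ) (hS : S.PosSemidef)
    (hnd : ∃ i j, i ≠ j ∧ S i j ≠ 0) :
    ∃ K : Set (EuclideanSpace ℝ (Fin n)),
      Convex ℝ K ∧ IsCompact K ∧ (interior K).Nonempty ∧ (∀ x ∈ K, -x ∈ K) ∧
      (∀ t : Fin n → ℝ, 0 < (multivariateGaussian 0 S).real (dilate t K)) ∧
      ¬ ConcaveOn ℝ Set.univ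
        (fun t : Fin n → ℝ => Real.log ((multivariateGaussian 0 S).real (dilate t K))) := by
  obtain ⟨i, j, hij, hc⟩ := hnd
  set A := S i i with hA
  set B := S j j with hB
  set c := S i j with hcdef
  have hq : ∀ a b : ℝ, 0 ≤ a ^ 2 * A + 2 * a * b * c + b ^ 2 * B := quad_nonneg S hS i j
  have hA0 : 0 < A := by
    have h0 : 0 ≤ A := by simpa using hq 1 0
    rcases h0.lt_or_eq with h | h
    · exact h
    · exfalso
      have h1 := hq (-(B + 1) / (2 * c)) 1
      rw [← h] at h1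
      have h2 : 2 * (-(B + 1) / (2 * c)) * 1 * c = -(B + 1) := by field_simp
      rw [h2] at h1
      linarith
  have hB0 : 0 < B := by
    have h0 : 0 ≤ B := by simpa using hq 0 1
    rcases h0.lt_or_eq with h | h
    · exact h
    · exfalso
      have h1 := hq 1 (-(A + 1) / (2 * c))
      rw [← h] at h1
      have h2 : 2 * 1 * (-(A + 1) / (2 * c)) * c = -(A + 1) := by field_simp
      rw [h2] at h1
      linarith
  have hc2 : 0 < c ^ 2 := by positivity
  -- parameters
  set A' := c ^ 2 * A with hA'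
  set c' := c ^ 2 with hc'
  have hA'0 : 0 < A' := by positivity
  obtain ⟨ε, hε0, hε1, hε2⟩ : ∃ ε : ℝ, 0 < ε ∧ 9 * A' * ε ≤ c' ∧ 16 * c' * ε ≤ B := by
    refine ⟨min (c' / (9 * A')) (B / (16 * c')), lt_min (by positivity) (by positivity), ?_, ?_⟩
    · have := min_le_left (c' / (9 * A')) (B / (16 * c'))
      rw [le_div_iff₀ (by positivity)] at this
      linarith
    · have := min_le_right (c' / (9 * A')) (B / (16 * c'))
      rw [le_div_iff₀ (by positivity)] at this
      linarith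
  set s : Fin n → ℝ := Pi.single i (-Real.log ε) with hs
  set t : Fin n → ℝ := Pi.single i (-Real.log (4 * ε)) with ht
  set m : Fin n → ℝ := (1 / 2 : ℝ) • s + (1 / 2 : ℝ) • t with hm
  have hsi : Real.exp (-(s i)) = ε := by simp [hs, Real.exp_log hε0]
  have hsj : Real.exp (-(s j)) = 1 := by simp [hs, hij.symm]
  have hti : Real.exp (-(t i)) = 4 * ε := by
    simp only [ht, Pi.single_eq_same, neg_neg]; exact Real.exp_log (by positivity)
  have htj : Real.exp (-(t j)) = 1 := by simp [ht, hij.symm]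
  have hmi : Real.exp (-(m i)) = 2 * ε := by
    have h1 : -(m i) = Real.log (2 * ε) := by
      simp only [hm, Pi.add_apply, Pi.smul_apply, smul_eq_mul, hs, ht, Pi.single_eq_same]
      rw [Real.log_mul (by norm_num) hε0.ne', Real.log_mul (by norm_num) hε0.ne',
        show (4:ℝ) = 2 ^ 2 by norm_num, Real.log_pow]
      push_cast
      ring
    rw [h1]; exact Real.exp_log (by positivity)
  have hmj : Real.exp (-(m j)) = 1 := by simp [hm, hs, ht, hij.symm]
  have hS' := fun δ => strip_real S hS i j (-c) 1 δ s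
  have hT' := fun δ => strip_real S hS i j (-c) 1 δ t
  have hM' := fun δ => strip_real S hS i j (-c) 1 δ m
  rw [hsi, hsj] at hS'
  rw [hti, htj] at hT'
  rw [hmi, hmj] at hM'
  rw [← hA, ← hB, ← hcdef] at hS' hT' hM'
  have es : (-c * ε) ^ 2 * A + 2 * (-c * ε) * (1 * 1) * c + (1 * 1) ^ 2 * B =
      A' * ε ^ 2 - 2 * c' * ε + B := by rw [hA', hc']; ring
  have et : (-c * (4 * ε)) ^ 2 * A + 2 * (-c * (4 * ε)) * (1 * 1) * c + (1 * 1) ^ 2 * B =
      16 * A' * ε ^ 2 - 8 * c' * ε + B := by rw [hA', hc']; ring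
  have em : (-c * (2 * ε)) ^ 2 * A + 2 * (-c * (2 * ε)) * (1 * 1) * c + (1 * 1) ^ 2 * B =
      4 * A' * ε ^ 2 - 4 * c' * ε + B := by rw [hA', hc']; ring
  rw [es] at hS'
  rw [et] at hT'
  rw [em] at hM'
  have hce : 0 < c' * ε := by positivity
  have hAe : 0 < A' * ε ^ 2 := by positivity
  have ps : 0 < A' * ε ^ 2 - 2 * c' * ε + B := by nlinarith
  have pt : 0 < 16 * A' * ε ^ 2 - 8 * c' * ε + B := by nlinarith
  have pm : 0 < 4 * A' * ε ^ 2 - 4 * c' * ε + B := by nlinarith
  have hkey : (A' * ε ^ 2 - 2 * c' * ε + B) * (16 * A' * ε ^ 2 - 8 * c' * ε + B) <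
      (4 * A' * ε ^ 2 - 4 * c' * ε + B) ^ 2 := by
    have h1 : (4 * A' * ε ^ 2 - 4 * c' * ε + B) ^ 2 -
        (A' * ε ^ 2 - 2 * c' * ε + B) * (16 * A' * ε ^ 2 - 8 * c' * ε + B) =
        ε * (B * (c' - 9 * A' * ε) + c' * B + 8 * A' * c' * ε ^ 2) := by ring
    have h2 : 0 < ε * (B * (c' - 9 * A' * ε) + c' * B + 8 * A' * c' * ε ^ 2) := by
      apply mul_pos hε0
      have h3 : 0 ≤ B * (c' - 9 * A' * ε) := mul_nonneg hB0.le (by linarith)
      have h4 : 0 < c' * B := by positivity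
      have h5 : 0 < 8 * A' * c' * ε ^ 2 := by positivity
      linarith
    linarith
  obtain ⟨δ, hδ, hlt⟩ := exists_delta (A' * ε ^ 2 - 2 * c' * ε + B).toNNReal
    (16 * A' * ε ^ 2 - 8 * c' * ε + B).toNNReal (4 * A' * ε ^ 2 - 4 * c' * ε + B).toNNReal
    (Real.toNNReal_pos.mpr ps).ne' (Real.toNNReal_pos.mpr pt).ne' (Real.toNNReal_pos.mpr pm).ne'
    (by rw [Real.coe_toNNReal _ ps.le, Real.coe_toNNReal _ pt.le, Real.coe_toNNReal _ pm.le]
        exact hkey)
  rw [← hS', ← hT', ← hM'] at hlt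
  set μ := multivariateGaussian (0 : EuclideanSpace ℝ (Fin n)) S with hμ
  have hlim := (tendsto_trunc S (strip i j (-c) 1 δ) s).mul
    (tendsto_trunc S (strip i j (-c) 1 δ) t)
  have hev := hlim.eventually (lt_mem_nhds hlt)
  obtain ⟨R, hR, hRpos⟩ := (hev.and (eventually_gt_atTop 0)).exists
  have hRpos' : (0 : ℝ) < (R : ℝ) := by exact_mod_cast hRpos
  set K : Set (EuclideanSpace ℝ (Fin n)) :=
    strip i j (-c) 1 δ ∩ Metric.closedBall 0 (R : ℝ) with hK
  have h0K : (0 : EuclideanSpace ℝ (Fin n)) ∈ interior K := by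
    rw [hK, interior_inter]
    refine ⟨zero_mem_interior_strip i j (-c) 1 δ hδ, ?_⟩
    exact Metric.ball_subset_interior_closedBall (Metric.mem_ball_self hRpos')
  have hpos : ∀ t : Fin n → ℝ, 0 < μ.real (dilate t K) := fun t => pos_dilate S K h0K t
  refine ⟨K, (convex_strip i j (-c) 1 δ).inter (convex_closedBall _ _),
    (isCompact_closedBall _ _).inter_left (isClosed_strip i j (-c) 1 δ), ⟨0, h0K⟩, ?_, hpos, ?_⟩
  · intro x hx
    refine ⟨neg_mem_strip i j (-c) 1 δ x hx.1, ?_⟩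
    have := hx.2
    rw [mem_closedBall_zero_iff] at this ⊢
    rwa [norm_neg]
  · intro hconc
    have h1 := hconc.2 (Set.mem_univ s) (Set.mem_univ t) (by norm_num : (0:ℝ) ≤ 1 / 2)
      (by norm_num : (0:ℝ) ≤ 1 / 2) (by norm_num)
    simp only [smul_eq_mul] at h1
    rw [← hm] at h1
    have h2 : Real.log (μ.real (dilate s K) * μ.real (dilate t K)) ≤
        Real.log (μ.real (dilate m K) ^ 2) := by
      rw [Real.log_mul (hpos s).ne' (hpos t).ne', Real.log_pow]
      push_cast
      linarith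
    have h3 : μ.real (dilate s K) * μ.real (dilate t K) ≤ μ.real (dilate m K) ^ 2 := by
      rwa [Real.log_le_log_iff (mul_pos (hpos s) (hpos t)) (pow_pos (hpos m) 2)] at h2
    have h4 : μ.real (dilate m K) ≤ μ.real (dilate m (strip i j (-c) 1 δ)) :=
      measureReal_mono (dilate_mono m Set.inter_subset_left)
    have h5 : μ.real (dilate m K) ^ 2 ≤ μ.real (dilate m (strip i j (-c) 1 δ)) ^ 2 :=
      pow_le_pow_left₀ (hpos m).le h4 2
    have h6 : μ.real (dilate m (strip i j (-c) 1 δ)) ^ 2 <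
        μ.real (dilate s K) * μ.real (dilate t K) := hR
    linarith

theorem exists_nondiag (n : ℕ) (hn : 2 ≤ n) :
    ∃ S : Matrix (Fin n) (Fin n) ℝ, S.PosDef ∧ ∃ i j, i ≠ j ∧ S i j ≠ 0 := by
  refine ⟨1 + vecMulVec (fun _ => 1) (star (fun _ => 1)),
    Matrix.PosDef.one.add_posSemidef (posSemidef_vecMulVec_self_star _),
    ⟨0, by omega⟩, ⟨1, by omega⟩, by simp, ?_⟩
  simp [vecMulVec_apply, Matrix.one_apply]

/-- For every centred Gaussian measure on `ℝ^n` whose covariance matrix is not diagonal there is an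
origin-symmetric convex body `K` such that `t ↦ γ(D_t K)` is (positive but) not log-concave; and
such measures, even non-degenerate ones, exist in every dimension `n ≥ 2`. -/
theorem result (n : ℕ) :
    (∀ S : Matrix (Fin n) (Fin n) ℝ, S.PosSemidef → (∃ i j, i ≠ j ∧ S i j ≠ 0) →
      ∃ K : Set (EuclideanSpace ℝ (Fin n)),
        Convex ℝ K ∧ IsCompact K ∧ (interior K).Nonempty ∧ (∀ x ∈ K, -x ∈ K) ∧
        (∀ t : Fin n → ℝ, 0 < (multivariateGaussian 0 S).real (dilate t K)) ∧
        ¬ ConcaveOn ℝ Set.univ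
          (fun t : Fin n → ℝ => Real.log ((multivariateGaussian 0 S).real (dilate t K)))) ∧
    (2 ≤ n → ∃ S : Matrix (Fin n) (Fin n) ℝ, S.PosDef ∧ ∃ i j, i ≠ j ∧ S i j ≠ 0) :=
  ⟨fun S hS hnd => exists_body S hS hnd, fun hn => exists_nondiag n hn⟩

end Pool.Agent.Results.MP_5a340a_gt.NonDiagonal
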